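import Pool.Agent.Y333.PC.Core
import Pool.Agent.Helper676.PCA

set_option autoImplicit false

/-!
# MP_3347f5_an: recovering a parabolic conductivity from final-time data, stable in the boundary trace

Stronger form of the starting result `FinalTimeUniqueness`: the domain may be any bounded open set
with the uniform exterior corkscrew condition (all bounded smooth domains and all bounded convex open
sets are of this kind), the coefficients only have to be continuous on `Ω̄` and `C¹` in `Ω`, the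
boundary data depend only on the time, the initial data vanish, and the boundary trace of the
coefficient does not have to be known: if the final states agree, then the relative difference of
the coefficients in `Ω` is at most its supremum on `∂Ω`. For equal boundary traces this is
uniqueness, the full answer to Q1.
-/

namespace Pool.Agent.Results.MP_3347f5_an.BoundaryStability

open Filter Topology Set
open scoped ContDiff

/-- Euclidean space `ℝⁿ`. -/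
abbrev E (n : ℕ) := EuclideanSpace ℝ (Fin n)

variable {n : ℕ}

/-- `Ω` is a bounded, connected, (nonempty) open set with `C^∞` boundary: near every boundary point
`x` the set `Ω` is `{ρ < 0}` for a smooth function `ρ` with nonvanishing differential at `x`. -/
structure SmoothDomain (Ω : Set (E n)) : Prop where
  isOpen : IsOpen Ω
  isConnected : IsConnected Ω
  isBounded : Bornology.IsBounded Ω
  smooth : ∀ x ∈ frontier Ω, ∃ V : Set (E n), IsOpen V ∧ x ∈ V ∧ ∃ ρ : E n → ℝ,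
    ContDiffOn ℝ ∞ ρ V ∧ fderiv ℝ ρ x ≠ 0 ∧ Ω ∩ V = {y | ρ y < 0} ∩ V

/-- `a ∈ C²(Ω̄)`: `a` is continuous on `Ω̄`, twice continuously differentiable in `Ω`, and its first
and second derivatives extend continuously to `Ω̄`. -/
structure C2Closure (Ω : Set (E n)) (a : E n → ℝ) : Prop where
  cont : ContinuousOn a (closure Ω)
  diff : ContDiffOn ℝ 2 a Ω
  ext1 : ∃ D : E n → (E n →L[ℝ] ℝ), ContinuousOn D (closure Ω) ∧ ∀ x ∈ Ω, D x = fderiv ℝ a x
  ext2 : ∃ D : E n → (E n →L[ℝ] E n →L[ℝ] ℝ), ContinuousOn D (closure Ω) ∧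
    ∀ x ∈ Ω, D x = fderiv ℝ (fderiv ℝ a) x

/-- The coefficient class `𝒜_K = {a ∈ C²(Ω̄) : K⁻¹ ≤ a ≤ K on Ω̄}`. -/
def coeffClass (Ω : Set (E n)) (K : ℝ) : Set (E n → ℝ) :=
  {a | C2Closure Ω a ∧ ∀ x ∈ closure Ω, K⁻¹ ≤ a x ∧ a x ≤ K}

/-- The larger class `{a ∈ C(Ω̄) ∩ C¹(Ω) : K⁻¹ ≤ a ≤ K on Ω̄}`. -/
def coeffClass1 (Ω : Set (E n)) (K : ℝ) : Set (E n → ℝ) :=
  {a | ContinuousOn a (closure Ω) ∧ ContDiffOn ℝ 1 a Ω ∧ ∀ x ∈ closure Ω, K⁻¹ ≤ a x ∧ a x ≤ K}

/-- The uniform exterior corkscrew condition: there is `r₀ > 0` such that for every boundary point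
`y` and every `0 < r ≤ r₀` the ball `B(y,r)` contains a ball of radius `r/8` outside `Ω`. -/
def ExteriorCorkscrew (Ω : Set (E n)) : Prop :=
  ∃ r₀ : ℝ, 0 < r₀ ∧ ∀ y ∈ frontier Ω, ∀ r : ℝ, 0 < r → r ≤ r₀ →
    ∃ z : E n, Metric.ball z (r / 8) ⊆ Metric.ball y r \ Ω

/-- Admissible data: `g ∈ C(∂Ω × [0,T])`, `h ∈ C(Ω̄)`, `g(·,0) = h` on `∂Ω`. -/
structure Admissible (Ω : Set (E n)) (T : ℝ) (g : E n → ℝ → ℝ) (h : E n → ℝ) : Prop where
  g_cont : ContinuousOn (fun q : E n × ℝ => g q.1 q.2) (frontier Ω ×ˢ Icc 0 T)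
  h_cont : ContinuousOn h (closure Ω)
  compat : ∀ x ∈ frontier Ω, g x 0 = h x

/-- `div (a ∇u)(x) = ∑ᵢ ∂ᵢ (a ∂ᵢ u)(x)`. -/
noncomputable def divAGrad (a u : E n → ℝ) (x : E n) : ℝ :=
  ∑ i : Fin n, fderiv ℝ (fun y => a y * fderiv ℝ u y (EuclideanSpace.single i 1)) x
    (EuclideanSpace.single i 1)

/-- `u ∈ C^{2,1}(Ω × (0,T])`: `u`, `∂ₜu`, `∇ₓu`, `∇ₓ²u` exist and are continuous on `Ω × (0,T]`
(the time derivative at `t = T` is the left derivative). -/
structure C21 (Ω : Set (E n)) (T : ℝ) (u : E n → ℝ → ℝ) : Prop where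
  space : ∀ t ∈ Ioc 0 T, ContDiffOn ℝ 2 (fun x => u x t) Ω
  time : ∀ x ∈ Ω, DifferentiableOn ℝ (u x) (Ioc 0 T)
  cont : ContinuousOn (fun q : E n × ℝ => u q.1 q.2) (Ω ×ˢ Ioc 0 T)
  cont_t : ContinuousOn (fun q : E n × ℝ => derivWithin (u q.1) (Ioc 0 T) q.2) (Ω ×ˢ Ioc 0 T)
  cont_x : ContinuousOn (fun q : E n × ℝ => fderiv ℝ (fun x => u x q.2) q.1) (Ω ×ˢ Ioc 0 T)
  cont_xx : ContinuousOn (fun q : E n × ℝ => fderiv ℝ (fderiv ℝ (fun x => u x q.2)) q.1)
    (Ω ×ˢ Ioc 0 T)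

/-- `u = u_a` is a solution in `C^{2,1}(Ω × (0,T]) ∩ C(Ω̄ × [0,T])` of
`u_t - div(a∇u) = 0` in `Ω × (0,T)`, `u = g` on `∂Ω × (0,T)`, `u(·,0) = h` in `Ω`. -/
structure IsSolution (Ω : Set (E n)) (T : ℝ) (a : E n → ℝ) (g : E n → ℝ → ℝ) (h : E n → ℝ)
    (u : E n → ℝ → ℝ) : Prop where
  c21 : C21 Ω T u
  cont : ContinuousOn (fun q : E n × ℝ => u q.1 q.2) (closure Ω ×ˢ Icc 0 T)
  pde : ∀ x ∈ Ω, ∀ t ∈ Ioo 0 T, deriv (u x) t - divAGrad a (fun y => u y t) x = 0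
  bdry : ∀ x ∈ frontier Ω, ∀ t ∈ Ioo 0 T, u x t = g x t
  init : ∀ x ∈ Ω, u x 0 = h x

open Pool.Agent.Helper676 in
lemma toHS {Ω : Set (E n)} (hΩ : IsOpen Ω) {T : ℝ} (hT : 0 < T) {a : E n → ℝ}
    (ha : ContDiffOn ℝ 1 a Ω) {G : ℝ → ℝ} (hG : Continuous G) {u : E n → ℝ → ℝ}
    (h : IsSolution Ω T a (fun _ t => G t) (fun _ => 0) u) :
    PC.HS Ω 0 T a u (fun x t => derivWithin (u x) (Ioc 0 T) t) G := by
  have hwd : ∀ x ∈ Ω, ∀ t ∈ Ioo (0 : ℝ) T,
      HasDerivAt (u x) (derivWithin (u x) (Ioc 0 T) t) t := by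
    intro x hx t ht
    have h1 : DifferentiableWithinAt ℝ (u x) (Ioc 0 T) t := h.c21.time x hx t ⟨ht.1, ht.2.le⟩
    exact h1.hasDerivWithinAt.hasDerivAt (Ioc_mem_nhds ht.1 ht.2)
  have hpde : ∀ x ∈ Ω, ∀ t ∈ Ioo (0 : ℝ) T,
      derivWithin (u x) (Ioc 0 T) t = PC.divAGrad a (fun y => u y t) x := by
    intro x hx t ht
    have h1 := h.pde x hx t ht
    rw [(hwd x hx t ht).deriv] at h1
    exact sub_eq_zero.1 h1
  refine ⟨h.cont, ?_, ?_, h.c21.space, hwd, h.c21.cont_t, ?_⟩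
  · -- initial value on the closure
    have h1 : ContinuousOn (fun x => u x 0) (closure Ω) :=
      h.cont.comp (f := fun x : E n => (x, (0 : ℝ))) (by fun_prop)
        (fun x hx => ⟨hx, le_rfl, hT.le⟩)
    have h2 : IsClosed (closure Ω ∩ (fun x => u x 0) ⁻¹' {0}) :=
      h1.preimage_isClosed_of_isClosed isClosed_closure isClosed_singleton
    have h3 : closure Ω ⊆ closure Ω ∩ (fun x => u x 0) ⁻¹' {0} :=
      closure_minimal (fun x hx => ⟨subset_closure hx, h.init x hx⟩) h2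
    exact fun x hx => (h3 hx).2
  · -- boundary values on the closed interval
    intro x hx t ht
    have h1 : ContinuousOn (fun t => u x t - G t) (Icc 0 T) :=
      (h.cont.comp (f := fun t : ℝ => (x, t)) (by fun_prop)
        (fun t ht => ⟨frontier_subset_closure hx, ht⟩)).sub hG.continuousOn
    have h2 : IsClosed (Icc 0 T ∩ (fun t => u x t - G t) ⁻¹' {0}) :=
      h1.preimage_isClosed_of_isClosed isClosed_Icc isClosed_singleton
    have h3 : Icc 0 T ⊆ Icc 0 T ∩ (fun t => u x t - G t) ⁻¹' {0} := by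
      rw [← closure_Ioo hT.ne]
      refine closure_minimal (fun t ht => ?_) (by rwa [closure_Ioo hT.ne])
      rw [closure_Ioo hT.ne]
      exact ⟨⟨ht.1.le, ht.2.le⟩, sub_eq_zero.2 (h.bdry x hx t ht)⟩
    exact sub_eq_zero.1 (h3 ht).2
  · -- the equation up to `t = T`
    intro x hx t ht
    rcases eq_or_lt_of_le ht.2 with h0 | h0
    · subst h0
      have c1 : ContinuousOn (fun s => derivWithin (u x) (Ioc 0 t) s) (Ioc 0 t) :=
        h.c21.cont_t.comp (f := fun s : ℝ => (x, s)) (by fun_prop) (fun s hs => ⟨hx, hs⟩)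
      have c2 : ContinuousOn (fun s => fderiv ℝ (fun x => u x s) x) (Ioc 0 t) :=
        h.c21.cont_x.comp (f := fun s : ℝ => (x, s)) (by fun_prop) (fun s hs => ⟨hx, hs⟩)
      have c3 : ContinuousOn (fun s => fderiv ℝ (fderiv ℝ (fun x => u x s)) x) (Ioc 0 t) :=
        h.c21.cont_xx.comp (f := fun s : ℝ => (x, s)) (by fun_prop) (fun s hs => ⟨hx, hs⟩)
      have c4 : ContinuousOn (fun s => PC.divAGrad a (fun y => u y s) x) (Ioc 0 t) := by
        have c5 : ContinuousOn (fun s => ∑ i : Fin n,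
            (a x * fderiv ℝ (fderiv ℝ (fun x => u x s)) x (EuclideanSpace.single i 1)
              (EuclideanSpace.single i 1) + fderiv ℝ (fun x => u x s) x
                (EuclideanSpace.single i 1) * fderiv ℝ a x (EuclideanSpace.single i 1)))
            (Ioc 0 t) := by
          apply continuousOn_finsetSum
          intro i _
          exact (continuousOn_const.mul ((c3.clm_apply continuousOn_const).clm_apply
            continuousOn_const)).add ((c2.clm_apply continuousOn_const).mul continuousOn_const)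
        exact c5.congr fun s hs => PC.divAGrad_expand hΩ ha (h.c21.space s hs) hx
      have l1 : Tendsto (fun s => derivWithin (u x) (Ioc 0 t) s) (𝓝[Ioo 0 t] t)
          (𝓝 (derivWithin (u x) (Ioc 0 t) t)) :=
        (c1 t ht).mono_left (nhdsWithin_mono _ Ioo_subset_Ioc_self)
      have l2 : Tendsto (fun s => PC.divAGrad a (fun y => u y s) x) (𝓝[Ioo 0 t] t)
          (𝓝 (PC.divAGrad a (fun y => u y t) x)) :=
        (c4 t ht).mono_left (nhdsWithin_mono _ Ioo_subset_Ioc_self)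
      have hnb : (𝓝[Ioo 0 t] t).NeBot := right_nhdsWithin_Ioo_neBot hT
      refine tendsto_nhds_unique (l1.congr' ?_) l2
      filter_upwards [self_mem_nhdsWithin] with s hs
      exact hpde x hx s hs
    · exact hpde x hx t ⟨ht.1, h0⟩

/-- Smooth domains satisfy the exterior corkscrew condition. -/
theorem SmoothDomain.corkscrew {Ω : Set (E n)} (hΩ : SmoothDomain Ω) : ExteriorCorkscrew Ω :=
  Pool.Agent.Helper676.PC.corkscrew hΩ.isBounded hΩ.isOpen hΩ.smooth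

/-- Convex open sets satisfy the exterior corkscrew condition. -/
theorem convex_corkscrew {Ω : Set (E n)} (hO : IsOpen Ω) (hc : Convex ℝ Ω) :
    ExteriorCorkscrew Ω := by
  refine ⟨1, one_pos, fun y hy r hr _ => ?_⟩
  have hyΩ : y ∉ Ω := by
    rw [hO.frontier_eq] at hy
    exact hy.2
  obtain ⟨f, hf⟩ := geometric_hahn_banach_open_point hc hO hyΩ
  obtain ⟨x0, hx0⟩ : Ω.Nonempty := by
    have h1 : y ∈ closure Ω := frontier_subset_closure hy
    exact closure_nonempty_iff.1 ⟨y, h1⟩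
  obtain ⟨w, hw⟩ : ∃ w : E n, ∀ x, f x = inner ℝ w x :=
    ⟨(InnerProductSpace.toDual ℝ (E n)).symm f, fun x => by
      rw [InnerProductSpace.toDual_symm_apply]⟩
  have hw0 : w ≠ 0 := by
    rintro rfl
    have h1 := hf x0 hx0
    rw [hw, hw, inner_zero_left, inner_zero_left] at h1
    exact lt_irrefl _ h1
  have hwn : 0 < ‖w‖ := norm_pos_iff.2 hw0
  refine ⟨y + (r / 2 * ‖w‖⁻¹) • w, fun x hx => ?_⟩
  rw [Metric.mem_ball, dist_eq_norm] at hx
  have hs : ‖(r / 2 * ‖w‖⁻¹) • w‖ = r / 2 := by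
    rw [norm_smul, Real.norm_eq_abs, abs_of_pos (by positivity), mul_assoc,
      inv_mul_cancel₀ hwn.ne', mul_one]
  constructor
  · rw [Metric.mem_ball, dist_eq_norm]
    calc ‖x - y‖ = ‖(x - (y + (r / 2 * ‖w‖⁻¹) • w)) + (r / 2 * ‖w‖⁻¹) • w‖ := by
          congr 1
          abel
      _ ≤ ‖x - (y + (r / 2 * ‖w‖⁻¹) • w)‖ + ‖(r / 2 * ‖w‖⁻¹) • w‖ := norm_add_le _ _
      _ < r := by rw [hs]; linarith
  · intro hxΩ
    have h1 := hf x hxΩ
    have h2 : f x = f y + (r / 2) * ‖w‖ + inner ℝ w (x - (y + (r / 2 * ‖w‖⁻¹) • w)) := by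
      rw [hw, hw, inner_sub_right, inner_add_right, inner_smul_right,
        real_inner_self_eq_norm_sq]
      field_simp
      ring
    have h3 := abs_real_inner_le_norm w (x - (y + (r / 2 * ‖w‖⁻¹) • w))
    have h4 := (abs_le.1 h3).1
    have h5 : ‖w‖ * ‖x - (y + (r / 2 * ‖w‖⁻¹) • w)‖ ≤ ‖w‖ * (r / 8) :=
      mul_le_mul_of_nonneg_left hx.le hwn.le
    nlinarith

open Pool.Agent.Helper676 in
/-- The main part, for sets with the exterior corkscrew condition. -/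
theorem main (n : ℕ) (hn : 1 ≤ n) (Ω : Set (E n)) (hO : IsOpen Ω)
    (hb : Bornology.IsBounded Ω) (hcs : ExteriorCorkscrew Ω) (T : ℝ) (hT : 0 < T) (K : ℝ)
    (hK : 1 ≤ K) : ∃ G : ℝ → ℝ, Continuous G ∧ G 0 = 0 ∧
      Admissible Ω T (fun _ t => G t) (fun _ => 0) ∧
      ∀ a₁ ∈ coeffClass1 Ω K, ∀ a₂ ∈ coeffClass1 Ω K, ∀ u₁ u₂ : E n → ℝ → ℝ,
        IsSolution Ω T a₁ (fun _ t => G t) (fun _ => 0) u₁ →
        IsSolution Ω T a₂ (fun _ t => G t) (fun _ => 0) u₂ → (∀ x ∈ Ω, u₁ x T = u₂ x T) →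
        ∀ θ : ℝ, 0 ≤ θ → (∀ x ∈ frontier Ω, |a₁ x - a₂ x| ≤ θ * a₁ x) →
          ∀ x ∈ Ω, |a₁ x - a₂ x| ≤ θ * a₁ x := by
  obtain ⟨r0, hr0, hcork⟩ := hcs
  obtain ⟨χ, c, hχ, hχ0, hcore⟩ := Pool.Agent.Y333.PC.core (n := n) (by omega) hK hO hb hr0
    hcork hT
  have hG : Continuous (PC.GG χ c T) := by
    unfold PC.GG
    exact hχ.mul (Real.continuous_exp.comp (by fun_prop))
  have hG0 : PC.GG χ c T 0 = 0 := by simp only [PC.GG, hχ0, zero_mul]
  refine ⟨PC.GG χ c T, hG, hG0, ⟨(hG.comp continuous_snd).continuousOn, continuousOn_const,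
    fun x _ => hG0⟩, ?_⟩
  intro a₁ ha₁ a₂ ha₂ u₁ u₂ hu₁ hu₂ hT12 θ hθ hbd
  have hTI : T ∈ Ioc 0 T := ⟨hT, le_rfl⟩
  exact hcore a₁ a₂ u₁ _ u₂ _ ha₁.1 ha₂.1 ha₁.2.1 ha₂.2.1 ha₁.2.2 ha₂.2.2
    (toHS hO hT ha₁.2.1 hG hu₁) (toHS hO hT ha₂.2.1 hG hu₂)
    (fun x hx => (hu₁.c21.time x hx T hTI).hasDerivWithinAt)
    (fun x hx => (hu₂.c21.time x hx T hTI).hasDerivWithinAt) hT12 θ hθ hbd

/-- The coefficients of the problem belong to the larger class. -/
theorem coeffClass_subset (Ω : Set (E n)) (K : ℝ) : coeffClass Ω K ⊆ coeffClass1 Ω K :=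
  fun _ ha => ⟨ha.1.cont, ha.1.diff.of_le (by norm_num), ha.2⟩

/-- **Full answer to Q1 (positive), with stability in the boundary trace and for rough domains.**
Let `n ≥ 1`, `T > 0`, `K ≥ 1` and let `Ω ⊆ ℝⁿ` be a bounded connected smooth domain, or any bounded
open set which is convex or satisfies the uniform exterior corkscrew condition. There are admissible
data `(g,h)`, with `h = 0` and `g` depending only on the time, such that for all coefficients
`a₁, a₂` continuous on `Ω̄` and `C¹` in `Ω` with values in `[K⁻¹,K]` (in particular for all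
`a₁, a₂ ∈ 𝒜_K`): if the solutions agree at time `T` in `Ω`, then for every `θ ≥ 0`
`|a₁ - a₂| ≤ θ a₁` on `∂Ω` implies `|a₁ - a₂| ≤ θ a₁` in `Ω`. For `θ = 0` this is uniqueness. -/
theorem result (n : ℕ) (hn : 1 ≤ n) (Ω : Set (E n))
    (hΩ : SmoothDomain Ω ∨
      (IsOpen Ω ∧ Bornology.IsBounded Ω ∧ (Convex ℝ Ω ∨ ExteriorCorkscrew Ω)))
    (T : ℝ) (hT : 0 < T) (K : ℝ) (hK : 1 ≤ K) :
    ∃ (g : E n → ℝ → ℝ) (h : E n → ℝ), Admissible Ω T g h ∧ (∀ x y t, g x t = g y t) ∧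
      (∀ x, h x = 0) ∧
      ∀ a₁ ∈ coeffClass1 Ω K, ∀ a₂ ∈ coeffClass1 Ω K, ∀ u₁ u₂ : E n → ℝ → ℝ,
        IsSolution Ω T a₁ g h u₁ → IsSolution Ω T a₂ g h u₂ → (∀ x ∈ Ω, u₁ x T = u₂ x T) →
        ∀ θ : ℝ, 0 ≤ θ → (∀ x ∈ frontier Ω, |a₁ x - a₂ x| ≤ θ * a₁ x) →
          ∀ x ∈ Ω, |a₁ x - a₂ x| ≤ θ * a₁ x := by
  have h1 : IsOpen Ω ∧ Bornology.IsBounded Ω ∧ ExteriorCorkscrew Ω := by
    rcases hΩ with h | ⟨h1, h2, h3 | h3⟩
    · exact ⟨h.isOpen, h.isBounded, h.corkscrew⟩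
    · exact ⟨h1, h2, convex_corkscrew h1 h3⟩
    · exact ⟨h1, h2, h3⟩
  obtain ⟨G, -, -, hadm, hmain⟩ := main n hn Ω h1.1 h1.2.1 h1.2.2 T hT K hK
  exact ⟨fun _ t => G t, fun _ => 0, hadm, fun _ _ _ => rfl, fun _ => rfl, hmain⟩

end Pool.Agent.Results.MP_3347f5_an.BoundaryStability
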